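import Pool.Agent.Lib.MP_16285c_agX.Top.Spec

/-!
# Dense orbits on varieties of every dimension: the model
-/

set_option autoImplicit false

namespace Pool.Agent.Lib.MP_16285c_agX

open Pool.Agent.Lib.MP_16285c_ag Pool.Agent.Lib.MP_16285c_agN
open Pool.Agent.Lib.MP_16285c_agS (toF vanK StmtInvD StmtNoPowE StmtPresK StmtRkK StmtIrrK StmtPrimS StmtLowS StmtConjS StmtDescS StmtDom StmtUni)

namespace ModXM

theorem sig_fr {K : Type} [Field K] {n : ℕ} {f : RM K n} {σ : RF n K →ₐ[K] RF n K} (h : Of f σ)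
    (G : Pl n K) : σ (fr G) = f.comp G := by
  have e : σ.comp (IsScalarTower.toAlgHom K (Pl n K) (RF n K)) = f.comp := by
    apply MvPolynomial.algHom_ext
    intro i
    rw [RM.comp, MvPolynomial.aeval_X]
    have h1 : fr (f.den i) ≠ 0 := fr_ne_zero (h i).1
    exact eq_div_of_mul_eq h1 (h i).2
  exact congrArg (fun u : Pl n K →ₐ[K] RF n K => u G) e

theorem prime_span {K : Type} [Field K] {n : ℕ} {P : Pl n K} (hP : Irreducible P) :
    (Ideal.span {P}).IsPrime :=
  (Ideal.span_singleton_prime hP.ne_zero).2 (UniqueFactorizationMonoid.irreducible_iff_prime.1 hP)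

/-- Descent of polynomials. -/
theorem desc_poly {K L : Type} [Field K] [Field L] [Algebra K L] {n : ℕ} (G : Pl n L)
    (h : ∀ m ∈ G.support, MvPolynomial.coeff m G ∈ Set.range (algebraMap K L)) :
    ∃ G₀ : Pl n K, MvPolynomial.map (algebraMap K L) G₀ = G := by
  classical
  choose! u hu using h
  refine ⟨∑ m ∈ G.support, MvPolynomial.monomial m (u m), ?_⟩
  rw [map_sum]
  conv_rhs => rw [G.as_sum]
  refine Finset.sum_congr rfl fun m hm => ?_
  rw [MvPolynomial.map_monomial, hu m hm]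

/-- The set of the coefficients. -/
noncomputable def cf {k : Type} [Field k] {n : ℕ} (G : Pl n k) : Finset k := by
  classical exact G.support.image fun m => MvPolynomial.coeff m G

theorem noR_pow {k : Type} [Field k] [IsAlgClosed k] [CharZero k] {n : ℕ} {P : Pl (n + 1) k}
    {f : RM k (n + 1)} (hP : Irreducible P) (hno : NoIX f P) {σ : RF (n + 1) k →ₐ[k] RF (n + 1) k}
    (hOf : Of f σ) (hpr : Pres σ (Ideal.span {P})) (hRes : StmtResF) (h1 : StmtG1)
    (hNoE : StmtNoEX) (hNoPow : StmtNoPowE) (M : ℕ) (hM : 1 ≤ M) : NoRX (σ ^ M) P := by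
  have hprime := prime_span hP
  have h0 : NoRX σ P := by
    intro A B hB hE
    apply hno A B hB
    obtain ⟨E, N, hE, he⟩ := hE
    refine ⟨E, N, hE, ?_⟩
    rw [he, sig_fr hOf, sig_fr hOf]
  obtain ⟨ρ, hρ⟩ := hRes (n + 1) k σ (Ideal.span {P}) hprime hpr (FractionRing (CR (Ideal.span {P})))
  rw [hNoE k n P (σ ^ M) (FractionRing (CR (Ideal.span {P}))) (ρ ^ M)
    (h1.2.2 k (n + 1) σ (Ideal.span {P}) _ ρ hρ M)]
  exact hNoPow k _ ρ ((hNoE k n P σ _ ρ hρ).1 h0) M hM

theorem fin_up {K : Type} [Field K] {n : ℕ} (R : Pl n K) :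
    MvPolynomial.finSuccEquiv K n (up K n R) = Polynomial.C R := by
  have e : (MvPolynomial.finSuccEquiv K n : Pl (n + 1) K →ₐ[K] Polynomial (Pl n K)).comp (up K n) =
      (IsScalarTower.toAlgHom K (Pl n K) (Polynomial (Pl n K))) := by
    apply MvPolynomial.algHom_ext
    intro i
    rw [AlgHom.comp_apply, up, MvPolynomial.rename_X]
    exact MvPolynomial.finSuccEquiv_X_succ
  exact congrArg (fun u : Pl n K →ₐ[K] Polynomial (Pl n K) => u R) e

/-- A polynomial which does not involve `X 0` is not divisible by `P`. -/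
theorem not_dvd_up {K : Type} [Field K] {n : ℕ} {P : Pl (n + 1) K} (hP : Irreducible P)
    (hmon : MonZ P) {R : Pl n K} (hR : R ≠ 0) : ¬ P ∣ up K n R := by
  intro hdvd
  have h1 : MvPolynomial.finSuccEquiv K n P ∣ Polynomial.C R := by
    rw [← fin_up]
    exact map_dvd (MvPolynomial.finSuccEquiv K n) hdvd
  have h2 : (MvPolynomial.finSuccEquiv K n P).natDegree = 0 := by
    have h3 := Polynomial.natDegree_le_of_dvd h1 (by rwa [Ne, Polynomial.C_eq_zero])
    rw [Polynomial.natDegree_C] at h3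
    omega
  have h3 : MvPolynomial.finSuccEquiv K n P = 1 := hmon.natDegree_eq_zero.1 h2
  have h4 : P = 1 := by
    apply (MvPolynomial.finSuccEquiv K n).injective
    rw [h3, map_one]
  exact hP.not_isUnit (by rw [h4]; exact isUnit_one)

/-- The class of a polynomial vanishes in `E` only if the polynomial is in the ideal. -/
theorem cl_eq_zero {K : Type} [Field K] {n : ℕ} (𝔭 : Ideal (Pl n K)) (E : Type) [Field E]
    [Algebra (CR 𝔭) E] [IsFractionRing (CR 𝔭) E] (G : Pl n K)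
    (h : algebraMap (CR 𝔭) E (cl 𝔭 G) = 0) : G ∈ 𝔭 := by
  have h1 : cl 𝔭 G = 0 := (IsFractionRing.injective (CR 𝔭) E) (by rw [h, map_zero])
  exact Ideal.Quotient.eq_zero_iff_mem.1 h1

end ModXM

open ModXM in
theorem tModX (hTop : StmtTopX) (hCan : StmtCanX) (hDom : StmtDom) (hPresX : StmtPresX)
    (hRes : StmtResF) (h1 : StmtG1) (hNoE : StmtNoEX) (hNoPow : StmtNoPowE)
    (hNoDesc : StmtNoDescX) (hDesc : StmtDesc) : StmtModX := by
  classical
  intro k _ _ _ n P e f hn hP hmon hinv hno he hgr b hb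
  refine hTop k n P f hn hP hmon hinv ?_ b hb
  obtain ⟨S₀, hS₀⟩ := hgr
  obtain ⟨hden, hjac, E₀, N₀, hE₀, hEN⟩ := id hinv
  obtain ⟨σ, hOf⟩ := hDom k (n + 1) f (fun i h0 => hden i (by rw [h0]; exact dvd_zero _))
    (fun h0 => hjac (by rw [h0]; exact dvd_zero _))
  have hpr := hPresX k n P f σ hP hOf hinv
  refine ⟨cf e ∪ S₀, ?_⟩
  intro K _ _ _ PK fK hS hPK hfK hPKi hPKm hinvK σK hσK M hM E _ _ _ _ _ ρ hρ
  have hprime : (Ideal.span {PK}).IsPrime := prime_span hPKi
  have hnoM := noR_pow hP hno hOf hpr hRes h1 hNoE hNoPow M hM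
  obtain ⟨eK, heK⟩ := desc_poly (K := K) e (fun m hm => hS _ (by
    rw [Finset.mem_union]
    refine Or.inl ?_
    unfold cf
    exact Finset.mem_image_of_mem _ hm))
  have hcmp : Cmp σK σ := by
    obtain ⟨σ', hσ', hc'⟩ := hDesc.1 K k (n + 1) fK σ (by rw [hfK]; exact hOf)
    intro i
    have h3 : σ' (gen (n + 1) K i) = σK (gen (n + 1) K i) :=
      mul_right_cancel₀ (fr_ne_zero (hσK i).1) ((hσ' i).2.trans (hσK i).2.symm)
    rw [hc' i, h3]
  have hnoK : NoRX (σK ^ M) PK := hNoDesc K k n PK (σK ^ M) (σ ^ M) hPKm (cmp_pow hcmp M)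
    (by rw [hPK]; exact hnoM)
  have hconst := (hNoE K n PK (σK ^ M) E ρ hρ).1 hnoK
  refine ⟨?_, ?_⟩
  · by_contra hcon
    push Not at hcon
    obtain ⟨m, rfl⟩ : ∃ m, n = m + 1 := ⟨n - 1, by omega⟩
    obtain ⟨c, hc⟩ := hconst _ (hcon (algebraMap (CR (Ideal.span {PK})) E
      (cl (Ideal.span {PK}) (MvPolynomial.X (Fin.succ 0)))))
    have h2 : algebraMap (CR (Ideal.span {PK})) E (cl (Ideal.span {PK})
        (up K (m + 1) (MvPolynomial.X 0 - MvPolynomial.C c))) = 0 := by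
      have h3 : up K (m + 1) (MvPolynomial.X 0 - MvPolynomial.C c) =
          MvPolynomial.X (Fin.succ 0) - MvPolynomial.C c := by
        rw [map_sub]
        have h4 : up K (m + 1) (MvPolynomial.C c) = MvPolynomial.C c :=
          MvPolynomial.rename_C _ _
        have h5 : up K (m + 1) (MvPolynomial.X 0) = MvPolynomial.X (Fin.succ 0) :=
          MvPolynomial.rename_X _ _
        rw [h4, h5]
      have h7 : cl (Ideal.span {PK}) (MvPolynomial.X (Fin.succ 0) - MvPolynomial.C c) =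
          cl (Ideal.span {PK}) (MvPolynomial.X (Fin.succ 0)) -
            cl (Ideal.span {PK}) (MvPolynomial.C c) := map_sub (Ideal.Quotient.mk _) _ _
      have h6 : cl (Ideal.span {PK}) (MvPolynomial.C c) = algebraMap K (CR (Ideal.span {PK})) c := rfl
      rw [h3, h7, map_sub, hc, h6, ← IsScalarTower.algebraMap_apply, sub_self]
    have h3 := cl_eq_zero _ E _ h2
    rw [Ideal.mem_span_singleton] at h3
    refine not_dvd_up hPKi hPKm ?_ h3
    intro h4
    have h5 := congrArg (MvPolynomial.eval (fun _ => c + 1)) h4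
    rw [map_sub, MvPolynomial.eval_X, MvPolynomial.eval_C, map_zero] at h5
    have h6 : (1 : K) = 0 := by
      have h7 : c + 1 - c = 1 := by ring
      rw [← h7]
      exact h5
    exact one_ne_zero h6
  · have hΓ : ∃ Γ : Pl n K, Γ ≠ 0 ∧ (2 ≤ n → ∀ (𝔭 : Ideal (Pl (n + 1) K)) [𝔭.IsPrime], PK ∈ 𝔭 →
        MvPolynomial.pderiv 0 PK ∉ 𝔭 → rk 𝔭 + 1 = n →
        ∀ (L : Type) [Field L] [Algebra (CR 𝔭) L] [IsFractionRing (CR 𝔭) L] [Algebra K L]
          [IsScalarTower K (CR 𝔭) L] (ρb : L →ₐ[K] L), Rst (σK ^ M) 𝔭 L ρb →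
          Module.finrank ρ.fieldRange E ≤ Module.finrank ρb.fieldRange L → up K n Γ ∈ 𝔭) := by
      by_cases h2 : 2 ≤ n
      · obtain ⟨Γ, h3, h4⟩ := hCan n h2 K PK hPKm E (σK ^ M) ρ hρ hconst
        exact ⟨Γ, h3, fun _ => h4⟩
      · exact ⟨1, one_ne_zero, fun h3 => absurd h3 h2⟩
    obtain ⟨Γ, hΓ0, hΓ1⟩ := hΓ
    refine ⟨eK * up K n Γ, ?_, ?_⟩
    · intro hdvd
      rcases (UniqueFactorizationMonoid.irreducible_iff_prime.1 hPKi).dvd_or_dvd hdvd with h2 | h2
      · apply he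
        rw [← hPK, ← heK]
        exact map_dvd (MvPolynomial.map (algebraMap K k)) h2
      · exact not_dvd_up hPKi hPKm hΓ0 h2
    · intro 𝔭 _ hP𝔭 hpd he' hrk1 hrk L _ _ _ _ _ ρb hρb
      by_cases h2 : rk 𝔭 + 2 ≤ n
      · exact hS₀ K PK eK fK (fun s hs => hS s (Finset.mem_union_right _ hs)) hPK heK hfK hinvK σK
          hσK M hM E ρ hρ 𝔭 hP𝔭 hpd (fun h3 => he' (Ideal.mul_mem_right _ _ h3)) hrk1 h2 L ρb hρb
      · by_contra hcon
        exact he' (Ideal.mul_mem_left _ _ (hΓ1 (by omega) 𝔭 hP𝔭 hpd (by omega) L ρb hρb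
          (not_lt.1 hcon)))

end Pool.Agent.Lib.MP_16285c_agX
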