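import Pool.Agent.Lib.MP_16285c_agX.Top.Spec
import Pool.Agent.Lib.MP_16285c_agN.Low

/-!
# Invariant functions on the hypersurface and on its function field (NoEX)
-/

set_option autoImplicit false

namespace Pool.Agent.Lib.MP_16285c_agX

open Pool.Agent.Lib.MP_16285c_ag Pool.Agent.Lib.MP_16285c_agN
open Pool.Agent.Lib.MP_16285c_agS (toF)

namespace NoEXM

section

variable {K : Type} [Field K] {n : ℕ} {P : Pl (n + 1) K} {E : Type} [Field E]
  [Algebra (CR (Ideal.span {P})) E] [IsFractionRing (CR (Ideal.span {P})) E]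

/-- The kernel of the restriction. -/
theorem ker (G : Pl (n + 1) K) : toF (Ideal.span {P}) E G = 0 ↔ P ∣ G := by
  constructor
  · intro h
    by_contra hG
    have hG' : G ∉ Ideal.span {P} := fun h' => hG (Ideal.mem_span_singleton.1 h')
    exact LowM.cl_ne (L := E) hG' h
  · intro h
    have h1 : Ideal.Quotient.mk (Ideal.span {P}) G = 0 :=
      Ideal.Quotient.eq_zero_iff_mem.2 (Ideal.mem_span_singleton.2 h)
    show algebraMap (CR (Ideal.span {P})) E (Ideal.Quotient.mk (Ideal.span {P}) G) = 0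
    rw [h1]
    exact map_zero (algebraMap (CR (Ideal.span {P})) E)

theorem not_dvd_mul [hP : (Ideal.span {P}).IsPrime] {A B : Pl (n + 1) K} (hA : ¬ P ∣ A)
    (hB : ¬ P ∣ B) : ¬ P ∣ A * B := fun h =>
  (hP.mem_or_mem (Ideal.mem_span_singleton.2 h)).elim
    (fun h' => hA (Ideal.mem_span_singleton.1 h')) (fun h' => hB (Ideal.mem_span_singleton.1 h'))

/-- Every function on the hypersurface is a quotient. -/
theorem frac [hP : (Ideal.span {P}).IsPrime] (h : E) : ∃ A B : Pl (n + 1) K, ¬ P ∣ B ∧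
    h * toF (Ideal.span {P}) E B = toF (Ideal.span {P}) E A := by
  obtain ⟨x, y, hy, hxy⟩ := IsFractionRing.div_surjective (A := CR (Ideal.span {P})) h
  obtain ⟨A, rfl⟩ := Ideal.Quotient.mk_surjective x
  obtain ⟨B, rfl⟩ := Ideal.Quotient.mk_surjective y
  have h1 : Ideal.Quotient.mk (Ideal.span {P}) B ≠ 0 := nonZeroDivisors.ne_zero hy
  have hB : ¬ P ∣ B := fun h' =>
    h1 (Ideal.Quotient.eq_zero_iff_mem.2 (Ideal.mem_span_singleton.2 h'))
  refine ⟨A, B, hB, ?_⟩
  have h2 : toF (Ideal.span {P}) E B ≠ 0 := fun h' => hB ((ker B).1 h')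
  have h3 : toF (Ideal.span {P}) E A / toF (Ideal.span {P}) E B = h := hxy
  rw [← h3, div_mul_cancel₀ _ h2]

omit [IsFractionRing (CR (Ideal.span {P})) E] in
/-- Numerators and denominators of the images. -/
theorem data [hP : (Ideal.span {P}).IsPrime] [Algebra K E] {σ : RF (n + 1) K →ₐ[K] RF (n + 1) K}
    {ρ : E →ₐ[K] E} (hR : Rst σ (Ideal.span {P}) E ρ) (A : Pl (n + 1) K) : ∃ N D : Pl (n + 1) K, ¬ P ∣ D ∧
      σ (fr A) * fr D = fr N ∧
      ρ (toF (Ideal.span {P}) E A) * toF (Ideal.span {P}) E D = toF (Ideal.span {P}) E N := by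
  obtain ⟨N, D, hD, h1, h2⟩ := hR (fr A) (toF (Ideal.span {P}) E A) (LowM.res_fr A)
  exact ⟨N, D, fun h => hD (Ideal.mem_span_singleton.2 h), h1, h2⟩

omit [IsFractionRing (CR (Ideal.span {P})) E] in
/-- Constants. -/
theorem const [Algebra K E] [IsScalarTower K (CR (Ideal.span {P})) E] (c : K) :
    toF (Ideal.span {P}) E (MvPolynomial.C c) = algebraMap K E c := by
  rw [IsScalarTower.algebraMap_apply K (CR (Ideal.span {P})) E]
  rfl

theorem frmul (A B : Pl (n + 1) K) : fr (A * B) = fr A * fr B := by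
  show algebraMap _ _ _ = _
  rw [map_mul]

theorem frsub (A B : Pl (n + 1) K) : fr (A - B) = fr A - fr B := by
  show algebraMap _ _ _ = _
  rw [map_sub]

end

end NoEXM

open NoEXM in
theorem tNoEX : StmtNoEX := by
  intro K _ n P hP σ E _ _ _ _ _ ρ hR
  constructor
  · intro hN h hh
    obtain ⟨A, B, hB, hAB⟩ := frac (P := P) h
    obtain ⟨NA, EA, hEA, a1, a2⟩ := data hR A
    obtain ⟨NB, EB, hEB, b1, b2⟩ := data hR B
    have hB0 : toF (Ideal.span {P}) E B ≠ 0 := fun h' => hB ((ker B).1 h')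
    have h1 : ρ (toF (Ideal.span {P}) E A) = h * ρ (toF (Ideal.span {P}) E B) := by
      rw [← hAB, map_mul, hh]
    have hW : toF (Ideal.span {P}) E (NA * EB * B - NB * EA * A) = 0 := by
      rw [map_sub, map_mul, map_mul, map_mul, map_mul, ← a2, ← b2, h1, ← hAB]
      ring
    obtain ⟨N, hWN⟩ := (ker _).1 hW
    obtain ⟨c, hc⟩ := hN A B hB ⟨EA * EB, N, not_dvd_mul hEA hEB, by
      rw [← hWN, frsub, frmul, frmul, frmul, frmul, frmul, ← a1, ← b1]
      ring⟩
    refine ⟨c, ?_⟩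
    have h2 := (ker (E := E) _).2 hc
    rw [map_sub, map_mul, const, sub_eq_zero, ← hAB] at h2
    exact mul_right_cancel₀ hB0 h2
  · intro H A B hB ⟨E₀, N, hE₀, heq⟩
    obtain ⟨NA, EA, hEA, a1, a2⟩ := data hR A
    obtain ⟨NB, EB, hEB, b1, b2⟩ := data hR B
    have hB0 : toF (Ideal.span {P}) E B ≠ 0 := fun h' => hB ((ker B).1 h')
    have hEA0 : toF (Ideal.span {P}) E EA ≠ 0 := fun h' => hEA ((ker EA).1 h')
    have hEB0 : toF (Ideal.span {P}) E EB ≠ 0 := fun h' => hEB ((ker EB).1 h')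
    have hE0 : toF (Ideal.span {P}) E E₀ ≠ 0 := fun h' => hE₀ ((ker E₀).1 h')
    have hρB : ρ (toF (Ideal.span {P}) E B) ≠ 0 := fun h' =>
      hB0 ((map_eq_zero_iff ρ (RingHom.injective (ρ : E →+* E))).1 h')
    have h1 : P * N * (EA * EB) = E₀ * (NA * EB * B - NB * EA * A) := by
      apply LowM.fr_inj
      rw [frmul (P * N), heq, frmul, frmul, frsub, frmul, frmul, frmul, frmul, ← a1,
        ← b1]
      ring
    have h2 := congrArg (toF (Ideal.span {P}) E) h1
    have h3 : toF (Ideal.span {P}) E (P * N * (EA * EB)) = 0 :=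
      (ker _).2 (Dvd.dvd.mul_right (dvd_mul_right P N) _)
    rw [h3, map_mul] at h2
    have h4 : toF (Ideal.span {P}) E (NA * EB * B - NB * EA * A) = 0 := by
      rcases mul_eq_zero.1 h2.symm with h' | h'
      · exact absurd h' hE0
      · exact h'
    rw [map_sub, map_mul, map_mul, map_mul, map_mul, ← a2, ← b2] at h4
    have h5 : ρ (toF (Ideal.span {P}) E A) * toF (Ideal.span {P}) E B =
        ρ (toF (Ideal.span {P}) E B) * toF (Ideal.span {P}) E A := by
      have h6 : toF (Ideal.span {P}) E EA * toF (Ideal.span {P}) E EB *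
          (ρ (toF (Ideal.span {P}) E A) * toF (Ideal.span {P}) E B -
            ρ (toF (Ideal.span {P}) E B) * toF (Ideal.span {P}) E A) = 0 := by
        rw [← h4]
        ring
      rcases mul_eq_zero.1 h6 with h' | h'
      · exact absurd h' (mul_ne_zero hEA0 hEB0)
      · exact sub_eq_zero.1 h'
    obtain ⟨c, hc⟩ := H (toF (Ideal.span {P}) E A / toF (Ideal.span {P}) E B) (by
      rw [map_div₀, div_eq_div_iff hρB hB0, h5]
      ring)
    refine ⟨c, (ker (E := E) _).1 ?_⟩
    rw [div_eq_iff hB0] at hc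
    rw [map_sub, map_mul, const, hc, sub_self]

end Pool.Agent.Lib.MP_16285c_agX
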