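import Pool.Agent.Lib.MP_16285c_agX.Top.Spec
import Pool.Agent.Lib.MP_16285c_agS.Top.InvD

/-!
# Dense orbits on varieties of every dimension: descent of the model to a smaller field
-/

set_option autoImplicit false

namespace Pool.Agent.Lib.MP_16285c_agX.InvDXM

open Pool.Agent.Lib.MP_16285c_ag Pool.Agent.Lib.MP_16285c_agN

variable {K k : Type} [Field K] [Field k] [Algebra K k]

theorem fse (n : ℕ) (P : Pl (n + 1) K) :
    MvPolynomial.finSuccEquiv k n (MvPolynomial.map (algebraMap K k) P) =
      (MvPolynomial.finSuccEquiv K n P).map (MvPolynomial.map (algebraMap K k)) := by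
  have h1 := Pool.Agent.Lib.MP_16285c_ag.map_up (algebraMap K k)
    (MvPolynomial.finSuccEquiv K n P)
  unfold Pool.Agent.Lib.MP_16285c_ag.up at h1
  rw [AlgEquiv.symm_apply_apply] at h1
  rw [h1, AlgEquiv.apply_symm_apply]

end Pool.Agent.Lib.MP_16285c_agX.InvDXM

namespace Pool.Agent.Lib.MP_16285c_agX

open Pool.Agent.Lib.MP_16285c_ag Pool.Agent.Lib.MP_16285c_agN

open Pool.Agent.Lib.MP_16285c_agS.TopInvDM (bc_comp) in
theorem tInvDX : StmtInvDX := by
  refine ⟨?_, ?_⟩
  · intro K k _ _ _ n P E N f h1 h2 h4 h5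
    refine ⟨fun i h => h1 i ?_, fun h => h2 ?_, E, N, fun h => h4 ?_, ?_⟩
    · exact map_dvd (MvPolynomial.map (algebraMap K k)) h
    · have h6 := map_dvd (MvPolynomial.map (algebraMap K k)) h
      have h7 : jac (f.map (algebraMap K k)) = MvPolynomial.map (algebraMap K k) (jac f) :=
        Pool.Agent.ZDO.map_Jc f (algebraMap K k)
      rw [h7]
      exact h6
    · exact map_dvd (MvPolynomial.map (algebraMap K k)) h
    · apply bc_injective (n := n + 1) (K := K) (L := k)
      rw [RingHom.map_mul (bc (n + 1) K k), bc_fr, bc_fr, bc_comp,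
        RingHom.map_mul (MvPolynomial.map (algebraMap K k))]
      exact h5
  · intro K k _ _ _ n P
    unfold MonZ
    rw [InvDXM.fse]
    exact (Function.Injective.monic_map_iff
      (MvPolynomial.map_injective _ (algebraMap K k).injective)).symm

end Pool.Agent.Lib.MP_16285c_agX
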