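import Pool.Agent.Lib.MP_16285c_agX.Top.Spec
import Pool.Agent.Lib.MP_16285c_agN.Low

/-!
# Dense orbits on varieties of every dimension: points which move (`StmtMoveX`)
-/

set_option autoImplicit false

namespace Pool.Agent.Lib.MP_16285c_agX

open Pool.Agent.Lib.MP_16285c_ag Pool.Agent.Lib.MP_16285c_agN
open Pool.Agent.Lib.MP_16285c_agS (toF vanK StmtInvD StmtNoPowE StmtPresK StmtRkK StmtIrrK StmtPrimS StmtLowS StmtConjS StmtDescS StmtDom StmtUni)

namespace MoveXM

/-- An endomorphism of the field of fractions which is not the identity moves a coordinate. -/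
theorem exists_move {K : Type} [Field K] {m : ℕ} (𝔭 : Ideal (Pl m K)) [𝔭.IsPrime]
    (E : Type) [Field E] [Algebra (CR 𝔭) E] [IsFractionRing (CR 𝔭) E]
    [Algebra K E] [IsScalarTower K (CR 𝔭) E] (ρ : E →ₐ[K] E) (h : ∃ h : E, ρ h ≠ h) :
    ∃ i : Fin m, ρ (algebraMap (CR 𝔭) E (cl 𝔭 (MvPolynomial.X i))) ≠
      algebraMap (CR 𝔭) E (cl 𝔭 (MvPolynomial.X i)) := by
  by_contra hcon
  push Not at hcon
  obtain ⟨x, hx⟩ := h
  apply hx
  have h1 : (ρ : E →+* E).comp ((algebraMap (CR 𝔭) E).comp (Ideal.Quotient.mk 𝔭)) =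
      (algebraMap (CR 𝔭) E).comp (Ideal.Quotient.mk 𝔭) := by
    apply MvPolynomial.ringHom_ext
    · intro c
      have h2 : algebraMap (CR 𝔭) E (Ideal.Quotient.mk 𝔭 (MvPolynomial.C c)) =
          algebraMap K E c := by
        rw [IsScalarTower.algebraMap_apply K (CR 𝔭) E c]
        rfl
      change ρ (algebraMap (CR 𝔭) E (Ideal.Quotient.mk 𝔭 (MvPolynomial.C c))) =
        algebraMap (CR 𝔭) E (Ideal.Quotient.mk 𝔭 (MvPolynomial.C c))
      rw [h2]
      exact ρ.commutes c
    · intro i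
      exact hcon i
  have h3 : ∀ G : CR 𝔭, ρ (algebraMap (CR 𝔭) E G) = algebraMap (CR 𝔭) E G := by
    intro G
    obtain ⟨G', rfl⟩ := Ideal.Quotient.mk_surjective G
    exact RingHom.congr_fun h1 G'
  obtain ⟨A, B, -, rfl⟩ := IsFractionRing.div_surjective (A := CR 𝔭) x
  rw [map_div₀, h3, h3]

end MoveXM

open MoveXM in
theorem tMoveX : StmtUni → StmtMoveX := by
  intro hu K _ n P f σ M hP hf hPres E _ _ _ _ _ ρ hR hne
  have hprime : (Ideal.span {P}).IsPrime :=
    (Ideal.span_singleton_prime hP.ne_zero).2 hP.prime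
  obtain ⟨i, hi⟩ := exists_move (Ideal.span {P}) E ρ hne
  obtain ⟨E₀, N, hE, hN, -⟩ := hPres (MvPolynomial.X i)
  refine ⟨N - MvPolynomial.X i * E₀, ?_, ?_⟩
  · intro hd
    apply hi
    have h1 : Rsd (Ideal.span {P}) E ((σ ^ M) (fr (MvPolynomial.X i)))
        (ρ (algebraMap (CR (Ideal.span {P})) E (cl (Ideal.span {P}) (MvPolynomial.X i)))) :=
      hR _ _ (LowM.res_fr (𝔭 := Ideal.span {P}) (L := E) (MvPolynomial.X i))
    have h2 : Rsd (Ideal.span {P}) E ((σ ^ M) (fr (MvPolynomial.X i)))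
        (algebraMap (CR (Ideal.span {P})) E (cl (Ideal.span {P}) (MvPolynomial.X i))) := by
      refine ⟨N, E₀, hE, ?_, ?_⟩
      · rw [hN, mul_comm]
      · have h3 : Ideal.Quotient.mk (Ideal.span {P}) N =
            Ideal.Quotient.mk (Ideal.span {P}) (MvPolynomial.X i * E₀) :=
          Ideal.Quotient.eq.2 (Ideal.mem_span_singleton.2 hd)
        change algebraMap (CR (Ideal.span {P})) E
              (Ideal.Quotient.mk (Ideal.span {P}) (MvPolynomial.X i)) *
            algebraMap (CR (Ideal.span {P})) E (Ideal.Quotient.mk (Ideal.span {P}) E₀) =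
          algebraMap (CR (Ideal.span {P})) E (Ideal.Quotient.mk (Ideal.span {P}) N)
        rw [h3, map_mul, map_mul]
    exact LowM.uniq h1 h2
  · intro K' _ _ y hy hG hM
    apply hG
    obtain ⟨E', N', hN', h⟩ := hu K (n + 1) f σ hf M (MvPolynomial.X i)
    obtain ⟨h1, h2⟩ := h K' y hy 0
    have h3 : N' * E₀ = N * E' := by
      apply IsFractionRing.injective (MvPolynomial (Fin (n + 1)) K)
        (FractionRing (MvPolynomial (Fin (n + 1)) K))
      rw [map_mul, map_mul]
      change fr N' * fr E₀ = fr N * fr E'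
      rw [hN', hN]
      ring
    have h4 := congrArg
      (MvPolynomial.aeval (y 0) : MvPolynomial (Fin (n + 1)) K →ₐ[K] K') h3
    rw [map_mul, map_mul, h2, zero_add, hM, MvPolynomial.aeval_X] at h4
    rw [map_sub, map_mul, MvPolynomial.aeval_X]
    have h5 : MvPolynomial.aeval (y 0) E' *
        (MvPolynomial.aeval (y 0) N - y 0 i * MvPolynomial.aeval (y 0) E₀) = 0 := by
      linear_combination -h4
    rcases mul_eq_zero.mp h5 with h6 | h6
    · exact absurd h6 h1
    · exact h6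

end Pool.Agent.Lib.MP_16285c_agX
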