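import Pool.Agent.Lib.MP_16285c_agX.Top.Spec

/-!
# Dense orbits on hypersurfaces: the map preserves the prime ideal of the hypersurface (`StmtPresX`)
-/

set_option autoImplicit false

namespace Pool.Agent.Lib.MP_16285c_agX

open Pool.Agent.Lib.MP_16285c_ag Pool.Agent.Lib.MP_16285c_agN

namespace PresXM

variable {K : Type} [Field K]

theorem fr_inj {n : ℕ} : Function.Injective (fun G : Pl n K => fr G) :=
  IsFractionRing.injective (MvPolynomial (Fin n) K) (FractionRing (MvPolynomial (Fin n) K))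

theorem fr_mul {n : ℕ} (a b : Pl n K) : fr (a * b) = fr a * fr b := map_mul _ _ _

theorem fr_add {n : ℕ} (a b : Pl n K) : fr (a + b) = fr a + fr b := map_add _ _ _

theorem fr_one {n : ℕ} : fr (1 : Pl n K) = 1 := map_one _

theorem sig_comp {n : ℕ} (f : RM K n) (σ : RF n K →ₐ[K] RF n K) (hσ : Of f σ) (G : Pl n K) :
    σ (fr G) = f.comp G := by
  have key : (σ.comp (IsScalarTower.toAlgHom K (MvPolynomial (Fin n) K)
      (FractionRing (MvPolynomial (Fin n) K)))) =
      MvPolynomial.aeval (fun i => algebraMap (MvPolynomial (Fin n) K)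
        (FractionRing (MvPolynomial (Fin n) K)) (f.num i) /
        algebraMap (MvPolynomial (Fin n) K) (FractionRing (MvPolynomial (Fin n) K)) (f.den i)) := by
    refine MvPolynomial.algHom_ext fun i => ?_
    rw [MvPolynomial.aeval_X, AlgHom.comp_apply]
    have h0 : algebraMap (MvPolynomial (Fin n) K) (FractionRing (MvPolynomial (Fin n) K))
        (f.den i) ≠ 0 := by
      rw [Ne, map_eq_zero_iff _ (IsFractionRing.injective _ _)]
      exact (hσ i).1
    rw [eq_div_iff h0]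
    exact (hσ i).2
  exact DFunLike.congr_fun key G

/-- A representative whose denominator is not divisible by the irreducible polynomial `P`. -/
theorem rep {n : ℕ} (P : Pl n K) (hP : Prime P) (f : RM K n) (σ : RF n K →ₐ[K] RF n K)
    (hσ : Of f σ) (hd : ∀ i, ¬ P ∣ f.den i) (H : Pl n K) :
    ∃ E N : Pl n K, ¬ P ∣ E ∧ fr N = fr E * σ (fr H) := by
  induction H using MvPolynomial.induction_on with
  | C a =>
    refine ⟨1, MvPolynomial.C a, fun h => hP.not_isUnit (isUnit_of_dvd_one h), ?_⟩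
    rw [sig_comp f σ hσ, fr_one, one_mul, RM.comp, MvPolynomial.aeval_C]
    change algebraMap (MvPolynomial (Fin n) K) (FractionRing (MvPolynomial (Fin n) K)) _ = _
    rw [← MvPolynomial.algebraMap_eq, ← IsScalarTower.algebraMap_apply]
  | add p q hp hq =>
    obtain ⟨E₁, N₁, h1, h2⟩ := hp
    obtain ⟨E₂, N₂, g1, g2⟩ := hq
    refine ⟨E₁ * E₂, N₁ * E₂ + N₂ * E₁, fun h => (hP.dvd_or_dvd h).elim h1 g1, ?_⟩
    rw [fr_add p q, map_add, fr_add, fr_mul, fr_mul, fr_mul, h2, g2]
    ring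
  | mul_X p i hp =>
    obtain ⟨E₁, N₁, h1, h2⟩ := hp
    refine ⟨E₁ * f.den i, N₁ * f.num i, fun h => (hP.dvd_or_dvd h).elim h1 (hd i), ?_⟩
    have h3 := (hσ i).2
    have h4 : fr (p * MvPolynomial.X i) = fr p * gen n K i := fr_mul _ _
    rw [h4, map_mul, fr_mul, fr_mul, h2, ← h3]
    ring

end PresXM

theorem tPresX (hJ : StmtJacQ) : StmtPresX := by
  intro K _ _ n P f σ hP hσ hI H
  obtain ⟨hd, hj, E₀, N₀, hE₀, hN₀⟩ := hI
  have hPp : Prime P := hP.prime
  obtain ⟨E, N, hE, hN⟩ := PresXM.rep P hPp f σ hσ hd H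
  refine ⟨E, N, ?_, hN, ?_⟩
  · rw [Ideal.mem_span_singleton]
    exact hE
  rw [Ideal.mem_span_singleton, Ideal.mem_span_singleton]
  have hN₀' : fr (P * N₀) = fr E₀ * σ (fr P) := by
    rw [PresXM.sig_comp f σ hσ]
    exact hN₀
  constructor
  · rintro ⟨H', rfl⟩
    obtain ⟨E', N', hE', hN'⟩ := PresXM.rep P hPp f σ hσ hd H'
    have h1 : N * (E₀ * E') = P * (E * N₀ * N') := by
      refine PresXM.fr_inj ?_
      change fr (N * (E₀ * E')) = fr (P * (E * N₀ * N'))
      have h2 : fr (P * (E * N₀ * N')) = fr E * fr (P * N₀) * fr N' := by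
        rw [PresXM.fr_mul, PresXM.fr_mul, PresXM.fr_mul, PresXM.fr_mul]
        ring
      have h3 : fr (N * (E₀ * E')) = fr N * (fr E₀ * fr E') := by
        rw [PresXM.fr_mul, PresXM.fr_mul]
      rw [h2, h3, hN₀', hN', hN]
      have h4 : σ (fr (P * H')) = σ (fr P) * σ (fr H') := by
        rw [PresXM.fr_mul, map_mul]
      rw [h4]
      ring
    have h5 : P ∣ N * (E₀ * E') := ⟨_, h1⟩
    rcases hPp.dvd_or_dvd h5 with h6 | h6
    · exact h6
    · exact ((hPp.dvd_or_dvd h6).elim hE₀ hE').elim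
  · intro hPN
    by_contra hPH
    refine hj (hJ (n + 1) K f σ hσ P P H hP hd ?_ ?_ ?_)
    · exact (hP.isRelPrime_iff_not_dvd).2 hPH
    · exact ⟨E₀, P * N₀, hE₀, hN₀', dvd_mul_right _ _⟩
    · exact ⟨E, N, hE, hN, hPN⟩

end Pool.Agent.Lib.MP_16285c_agX
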