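import Pool.Agent.Lib.MP_16285c_agS.Top.All
import Pool.Agent.Lib.MP_16285c_agX.Top.CoreX
import Pool.Agent.Lib.MP_16285c_agX.Top.FinX
import Pool.Agent.Lib.MP_16285c_agX.Top.InvDX
import Pool.Agent.Lib.MP_16285c_agX.Top.ModX
import Pool.Agent.Lib.MP_16285c_agX.Top.MoveX
import Pool.Agent.Lib.MP_16285c_agX.Top.NoDescX
import Pool.Agent.Lib.MP_16285c_agX.Top.NoEX
import Pool.Agent.Lib.MP_16285c_agX.Top.NrmX
import Pool.Agent.Lib.MP_16285c_agX.Top.PresX
import Pool.Agent.Lib.MP_16285c_agX.Top.Tow1X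
import Pool.Agent.Lib.MP_16285c_agX.Top.Tow2X

/-!
# Sections C and D of note 4936: closed forms
-/

set_option autoImplicit false

namespace Pool.Agent.Lib.MP_16285c_agX

open Pool.Agent.Lib.MP_16285c_ag Pool.Agent.Lib.MP_16285c_agN
open Pool.Agent.Lib.MP_16285c_agS

theorem cTowX : StmtTowX := by
  intro K _ _ n P hm hP E _ _ _ F hF hFi
  obtain ⟨H, α, β, G, Θ, hH, hd, hHi, hG, h1, h2, h3⟩ := tTow1X K n P hm hP E F hF hFi
  have hdeg : 1 ≤ F.natDegree := by
    have e := hFi.natDegree_pos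
    rw [hF.natDegree_map] at e
    exact e
  exact ⟨H, G, hH, hHi, hG, tTow2X K n P hm hP F hF hdeg H α β G Θ hH hd h1 h2 h3⟩

/-- The core of the argument. -/
theorem cCoreX : StmtCoreX :=
  tCoreX stmtResF tG1 tRk2 (tRk3 tRk2) aTan (tPresK tUni) tRkK (tIrrK aIrr) tPrimS tNrmX
    (tMoveX tUni) cTowX tLowS

/-- Dense orbits, from the box. -/
theorem cTopX (hBox : StmtBoxX) : StmtTopX :=
  tFinX hBox tDom (tPresX stmtJacQ) stmtResF tInvD tInvDX iLiftC2 aHitPt iDesc cCoreX tConj tDesc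

/-- The theorem for the model, from the box and sections E and F. -/
theorem cModelX (hBox : StmtBoxX) (h : StmtCanX) : StmtModelX :=
  tModX (cTopX hBox) h tDom (tPresX stmtJacQ) stmtResF tG1 tNoEX tNoPow tNoDescX iDesc

end Pool.Agent.Lib.MP_16285c_agX
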