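import Pool.Agent.Lib.MP_16285c_agX.BoxDefs

/-!
# Dense orbits on varieties of every dimension: interfaces of the sections B, C, D, D' of note 4936

`StmtBoxX` (box): see `BoxDefs.lean`. `Gr1` (no invariant subvariety of dimension `r`, `1 ≤ r ≤ n - 1`, has full residue degree), `StmtTopX` (result of the package Top: `Gr1` implies that there are dense orbits; used for AllVarieties and for Zhang's conjecture),
`GrX` (growth on the subvarieties of dimension `r`, `1 ≤ r ≤ n - 2`; to be deduced from the dynamical degrees by helper62), `StmtModelX` (from `StmtTopX`, `StmtCanX`, helper47).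
-/

set_option autoImplicit false

namespace Pool.Agent.Lib.MP_16285c_agX

open Pool.Agent.Lib.MP_16285c_ag Pool.Agent.Lib.MP_16285c_agN

section

variable {K : Type} [Field K] {n : ℕ}

/-- No subvariety `V(𝔭)` of dimension `r`, `1 ≤ r ≤ n - 2`, of the hypersurface `P = 0` outside `e * pderiv 0 P = 0`, which is preserved by `σ`, has residue degree `≥ T`. -/
def NoFullX (P e : Pl (n + 1) K) (σ : RF (n + 1) K →ₐ[K] RF (n + 1) K) (T : ℕ) : Prop :=
  ∀ (𝔭 : Ideal (Pl (n + 1) K)) [𝔭.IsPrime], P ∈ 𝔭 → MvPolynomial.pderiv 0 P ∉ 𝔭 → e ∉ 𝔭 →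
    1 ≤ rk 𝔭 → rk 𝔭 + 2 ≤ n →
    ∀ (L : Type) [Field L] [Algebra (CR 𝔭) L] [IsFractionRing (CR 𝔭) L] [Algebra K L]
      [IsScalarTower K (CR 𝔭) L] (ρb : L →ₐ[K] L), Rst σ 𝔭 L ρb →
      Module.finrank ρb.fieldRange L < T

/-- No subvariety `V(𝔭)` of dimension `r`, `1 ≤ r ≤ n - 1`, of the hypersurface `P = 0` outside `e * pderiv 0 P = 0`, which is preserved by `σ`, has residue degree `≥ T`. -/
def NoFull1 (P e : Pl (n + 1) K) (σ : RF (n + 1) K →ₐ[K] RF (n + 1) K) (T : ℕ) : Prop :=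
  ∀ (𝔭 : Ideal (Pl (n + 1) K)) [𝔭.IsPrime], P ∈ 𝔭 → MvPolynomial.pderiv 0 P ∉ 𝔭 → e ∉ 𝔭 →
    1 ≤ rk 𝔭 → rk 𝔭 + 1 ≤ n →
    ∀ (L : Type) [Field L] [Algebra (CR 𝔭) L] [IsFractionRing (CR 𝔭) L] [Algebra K L]
      [IsScalarTower K (CR 𝔭) L] (ρb : L →ₐ[K] L), Rst σ 𝔭 L ρb →
      Module.finrank ρb.fieldRange L < T

/-- The hypothesis of `StmtTopX`: over all fields of definition `K ⊆ k` which contain the finite set `S`, for all iterates of `f`: the iterate is not the identity, and no invariant subvariety outside `e' = 0` has full residue degree (`ρ` is the action of the iterate on the function field `E` of the hypersurface over `K`; `e'` may depend on `K` and `M`). -/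
def Gr1 {k : Type} [Field k] (P : Pl (n + 1) k) (f : RM k (n + 1)) : Prop :=
  ∃ S : Finset k, ∀ (K : Type) [Field K] [CharZero K] [Algebra K k] (PK : Pl (n + 1) K)
    (fK : RM K (n + 1)), (∀ s ∈ S, s ∈ Set.range (algebraMap K k)) →
    MvPolynomial.map (algebraMap K k) PK = P → fK.map (algebraMap K k) = f → Irreducible PK →
    MonZ PK → InvX fK PK → ∀ σK : RF (n + 1) K →ₐ[K] RF (n + 1) K, Of fK σK → ∀ M : ℕ, 1 ≤ M →
    ∀ (E : Type) [Field E] [Algebra (CR (Ideal.span {PK})) E] [IsFractionRing (CR (Ideal.span {PK})) E]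
      [Algebra K E] [IsScalarTower K (CR (Ideal.span {PK})) E] (ρ : E →ₐ[K] E),
      Rst (σK ^ M) (Ideal.span {PK}) E ρ → (∃ h : E, ρ h ≠ h) ∧
        ∃ e' : Pl (n + 1) K, ¬ PK ∣ e' ∧ NoFull1 PK e' (σK ^ M) (Module.finrank ρ.fieldRange E)

/-- The growth hypothesis for `f` and its iterates, over all fields of definition `K ⊆ k` which contain the finite set `S₀`. -/
def GrX {k : Type} [Field k] (P e : Pl (n + 1) k) (f : RM k (n + 1)) : Prop :=
  ∃ S₀ : Finset k, ∀ (K : Type) [Field K] [CharZero K] [Algebra K k] (PK eK : Pl (n + 1) K)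
    (fK : RM K (n + 1)) [(Ideal.span {PK}).IsPrime], (∀ s ∈ S₀, s ∈ Set.range (algebraMap K k)) →
    MvPolynomial.map (algebraMap K k) PK = P → MvPolynomial.map (algebraMap K k) eK = e →
    fK.map (algebraMap K k) = f → InvX fK PK →
    ∀ σK : RF (n + 1) K →ₐ[K] RF (n + 1) K, Of fK σK → ∀ M : ℕ, 1 ≤ M →
    ∀ (E : Type) [Field E] [Algebra (CR (Ideal.span {PK})) E] [IsFractionRing (CR (Ideal.span {PK})) E]
      [Algebra K E] [IsScalarTower K (CR (Ideal.span {PK})) E] (ρ : E →ₐ[K] E),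
      Rst (σK ^ M) (Ideal.span {PK}) E ρ → NoFullX PK eK (σK ^ M) (Module.finrank ρ.fieldRange E)

end

/-- The result of Top. -/
def StmtTopX : Prop :=
  ∀ (k : Type) [Field k] [IsAlgClosed k] [CharZero k] (n : ℕ) (P : Pl (n + 1) k)
    (f : RM k (n + 1)), 1 ≤ n → Irreducible P → MonZ P → InvX f P → Gr1 P f →
    ∀ b : Pl (n + 1) k, ¬ P ∣ b →
    ∃ x : ℕ → Fin (n + 1) → k, f.Orb x ∧
      (∀ m, MvPolynomial.eval (x m) P = 0 ∧ MvPolynomial.eval (x m) b ≠ 0) ∧
      ∀ G : Pl (n + 1) k, ¬ P ∣ G → ∃ m, MvPolynomial.eval (x m) G ≠ 0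

/-- The theorem for the model. -/
def StmtModelX : Prop :=
  ∀ (k : Type) [Field k] [IsAlgClosed k] [CharZero k] (n : ℕ) (P e : Pl (n + 1) k)
    (f : RM k (n + 1)), 1 ≤ n → Irreducible P → MonZ P → InvX f P → NoIX f P → ¬ P ∣ e →
    GrX P e f → ∀ b : Pl (n + 1) k, ¬ P ∣ b →
    ∃ x : ℕ → Fin (n + 1) → k, f.Orb x ∧
      (∀ m, MvPolynomial.eval (x m) P = 0 ∧ MvPolynomial.eval (x m) b ≠ 0) ∧
      ∀ G : Pl (n + 1) k, ¬ P ∣ G → ∃ m, MvPolynomial.eval (x m) G ≠ 0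

end Pool.Agent.Lib.MP_16285c_agX
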