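import Pool.Agent.Lib.MP_16285c_agS.Top.Spec
import Pool.Agent.Lib.MP_16285c_agX.Top.Defs

/-!
# Dense orbits on varieties of every dimension: orbit closure and assembly for the model: statements

Every statement here is the statement of `Lib/MP_16285c_agS/Top/Spec.lean` with the same name (and `S` in place of `X`) for hypersurfaces in affine `(n+1)`-space instead of surfaces in affine three-space (`Pl 3`, `Pl 2`, `Fin 3`, `Fin 2` replaced by `Pl (n + 1)`, `Pl n`, `Fin (n + 1)`, `Fin n`).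
The statements `StmtDom`, `StmtUni`, `StmtNoPowE`, `StmtPresK`, `StmtRkK`, `StmtIrrK`, `StmtPrimS`, `StmtLowS`, `StmtConjS`, `StmtDescS` and `StmtInvD` (2) are already general and are used from there. File `Top/Y.lean`, `theorem tY : StmtY` or `theorem tY (h : StmtZ) : StmtY`, namespace `Pool.Agent.Lib.MP_16285c_agX`, auxiliary lemmas in the namespace
`Pool.Agent.Lib.MP_16285c_agX.YM`. The proofs are the ones of the landed files `Lib/MP_16285c_agS/Top/*.lean`: copy and adapt them. Definitions: `Lib/MP_16285c_agX/Defs.lean`, `Top/Defs.lean`.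
-/

set_option autoImplicit false

namespace Pool.Agent.Lib.MP_16285c_agX

open Pool.Agent.Lib.MP_16285c_ag Pool.Agent.Lib.MP_16285c_agN
open Pool.Agent.Lib.MP_16285c_agS (toF vanK StmtInvD StmtNoPowE StmtPresK StmtRkK StmtIrrK StmtPrimS StmtLowS StmtConjS StmtDescS StmtDom StmtUni)

/-! ## General lemmas -/

/-- (PresX) Adapt `Lib/MP_16285c_agS/Top/PresS.lean`. PROOF (uses `StmtJacQ`). `σ (fr G) = f.comp G` for all `G` (both are algebra homomorphisms; compare on `X i` with `Of`). Given `H`: let `D = ∏ i, f.den i`, not divisible by `P` (`P` is prime), and `e` with `fr N = fr (D ^ e) * σ (fr H)` for a polynomial `N` (induction on `H`). `E = D ^ e ∉ span {P}`.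
If `P ∣ H`, `H = P * H'`: from `InvX`, `fr (P * N₀) = fr E₀ * σ (fr P)`, and for `H'`: `fr N' = fr (D ^ e') * σ (fr H')`; so `N * E₀ * D ^ e' = D ^ e * P * N₀ * N'` and `P ∣ N`. If `P ∣ N` and not `P ∣ H` then `P` and `H` are relatively prime, `Dv P (σ (fr P))` and `Dv P (σ (fr H))`, so `StmtJacQ` (with `Q = P`, `h = H`) gives `P ∣ jac f`: a contradiction. -/
def StmtPresX : Prop :=
  ∀ (K : Type) [Field K] [CharZero K] (n : ℕ) (P : Pl (n + 1) K) (f : RM K (n + 1))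
    (σ : RF (n + 1) K →ₐ[K] RF (n + 1) K),
    Irreducible P → Of f σ → InvX f P → Pres σ (Ideal.span {P})

/-- (NoEX) Adapt `Lib/MP_16285c_agS/Top/NoE.lean`. PROOF: docstring of `StmtNoE` in `Lib/MP_16285c_agS/Top/Spec.lean`. -/
def StmtNoEX : Prop :=
  ∀ (K : Type) [Field K] (n : ℕ) (P : Pl (n + 1) K) [(Ideal.span {P}).IsPrime]
    (σ : RF (n + 1) K →ₐ[K] RF (n + 1) K)
    (E : Type) [Field E] [Algebra (CR (Ideal.span {P})) E] [IsFractionRing (CR (Ideal.span {P})) E] [Algebra K E]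
    [IsScalarTower K (CR (Ideal.span {P})) E] (ρ : E →ₐ[K] E), Rst σ (Ideal.span {P}) E ρ →
    (NoRX σ P ↔ ∀ h : E, ρ h = h → ∃ c : K, h = algebraMap K E c)

/-- (NoDescX) Adapt `Lib/MP_16285c_agS/Top/NoDesc.lean`. PROOF: docstring of `StmtNoDesc` in `Lib/MP_16285c_agS/Top/Spec.lean`. -/
def StmtNoDescX : Prop :=
  ∀ (K k : Type) [Field K] [Field k] [Algebra K k] (n : ℕ) (P : Pl (n + 1) K)
    (σK : RF (n + 1) K →ₐ[K] RF (n + 1) K) (σ : RF (n + 1) k →ₐ[k] RF (n + 1) k), MonZ P → Cmp σK σ →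
    NoRX σ (MvPolynomial.map (algebraMap K k) P) → NoRX σK P

/-- (InvDX) Adapt `Lib/MP_16285c_agS/Top/InvD.lean` (parts 1 and 3, without `Hrx.jX`). PROOF. `φ = map (algebraMap K k)` is injective. (1) If `P ∣ G` then `φ P ∣ φ G`; `(f.map _).den i = φ (f.den i)`, `jac (f.map _) = φ (jac f)` (`Pool.Agent.ZDO.map_Jc`), `bc (n + 1) K k (f.comp G) = (f.map _).comp (φ G)` (compare on generators), `bc` is injective.
(2) `finSuccEquiv k n (φ P) = (finSuccEquiv K n P).map φ` (`map_up` in `Lib/MP_16285c_ag/Base.lean`), same degree and leading coefficient (`Polynomial.natDegree_map_eq_of_injective`); so the leading coefficient of `P` is `1`. -/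
def StmtInvDX : Prop :=
  (∀ (K k : Type) [Field K] [Field k] [Algebra K k] (n : ℕ) (P E N : Pl (n + 1) K) (f : RM K (n + 1)),
    (∀ i, ¬ MvPolynomial.map (algebraMap K k) P ∣ (f.map (algebraMap K k)).den i) →
    ¬ MvPolynomial.map (algebraMap K k) P ∣ jac (f.map (algebraMap K k)) →
    ¬ MvPolynomial.map (algebraMap K k) P ∣ MvPolynomial.map (algebraMap K k) E →
    fr (MvPolynomial.map (algebraMap K k) P * MvPolynomial.map (algebraMap K k) N) =
      fr (MvPolynomial.map (algebraMap K k) E) *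
        (f.map (algebraMap K k)).comp (MvPolynomial.map (algebraMap K k) P) → InvX f P) ∧
  ∀ (K k : Type) [Field K] [Field k] [Algebra K k] (n : ℕ) (P : Pl (n + 1) K),
    MonZ (MvPolynomial.map (algebraMap K k) P) ↔ MonZ P

/-- (NrmX) Adapt `Lib/MP_16285c_agS/Top/Nrm.lean`. PROOF. `S = MvPolynomial (Fin n) K`, `Q = RF n K`, `P♯ = finSuccEquiv K n P ∈ S[Z]` monic, irreducible, so irreducible over `Q` (`Polynomial.Monic.irreducible_iff_irreducible_map_fraction_map`). `P♯` does not divide the image of `G♯` over `Q` (`Polynomial.map_dvd_map`, monic). So `a P♯ + b G♯ = 1` with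
`a, b ∈ Q[Z]` (`Irreducible.coprime_iff_not_dvd`). Clear the denominators: `R ∈ S`, `R ≠ 0`, `R a`, `R b` from `S[Z]`. `finSuccEquiv K n (up K n R) = Polynomial.C R` (`up_C` in `Lib/MP_16285c_ag/Base.lean`). -/
def StmtNrmX : Prop :=
  ∀ (K : Type) [Field K] (n : ℕ) (P : Pl (n + 1) K), Irreducible P → MonZ P →
    ∀ G : Pl (n + 1) K, ¬ P ∣ G →
    ∃ (R : Pl n K) (A B : Pl (n + 1) K), R ≠ 0 ∧ up K n R = A * P + B * G

/-- (MoveX) Model: `Lib/MP_16285c_agS/Top/MoveS.lean`. PROOF (uses `StmtUni`). `π = toF (span {P}) E`. If `ρ (π (X i)) = π (X i)` for all `i` then `ρ = id` (every element of `E` is `π A / π B`, and `ρ` is a `K`-algebra homomorphism): a contradiction. Let `ρ (π (X i)) ≠ π (X i)`. `Pres` for `H = X i`: `E₀, N` with `¬ P ∣ E₀`, `fr N = fr E₀ * (σ ^ M) (fr (X i))`. `G = N - X i * E₀`.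
`Rst` for `Rsd (fr (X i)) (π (X i))` and the uniqueness of residues (`LowM.res_fr`, `LowM.uniq` in `Lib/MP_16285c_agN/Low.lean`) give `ρ (π (X i)) * π E₀ = π N`; so if `P ∣ G` then `ρ (π (X i)) = π (X i)`: a contradiction. Let `y` be an orbit, `y M = y 0`. `StmtUni` for `M`, `X i`: `E', N'` with `E'(y 0) ≠ 0`, `N'(y 0) = E'(y 0) * y M i`,
`fr N' = fr E' * (σ ^ M) (fr (X i))`, so `N' * E₀ = N * E'`, `E'(y 0) * y 0 i * E₀(y 0) = N(y 0) * E'(y 0)`, so `G(y 0) = 0`. -/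
def StmtMoveX : Prop :=
  ∀ (K : Type) [Field K] (n : ℕ) (P : Pl (n + 1) K) (f : RM K (n + 1))
    (σ : RF (n + 1) K →ₐ[K] RF (n + 1) K) (M : ℕ),
    Irreducible P → Of f σ → Pres (σ ^ M) (Ideal.span {P}) →
    ∀ (E : Type) [Field E] [Algebra (CR (Ideal.span {P})) E] [IsFractionRing (CR (Ideal.span {P})) E]
      [Algebra K E] [IsScalarTower K (CR (Ideal.span {P})) E] (ρ : E →ₐ[K] E),
      Rst (σ ^ M) (Ideal.span {P}) E ρ → (∃ h : E, ρ h ≠ h) →
    ∃ G : Pl (n + 1) K, ¬ P ∣ G ∧ ∀ (K' : Type) [Field K'] [Algebra K K'] (y : ℕ → Fin (n + 1) → K'),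
      (f.map (algebraMap K K')).Orb y → MvPolynomial.aeval (y 0) G ≠ 0 → y M ≠ y 0

/-! ## Tower of irreducible fibres -/

/-- (Tow1X) Adapt `Lib/MP_16285c_agS/Top/Tow1.lean`. PROOF: docstring of `StmtTow1` in `Lib/MP_16285c_agS/Top/Spec.lean`. -/
def StmtTow1X : Prop :=
  ∀ (K : Type) [Field K] [CharZero K] (n : ℕ) (P : Pl (n + 1) K) (_ : MonZ P) (_ : Irreducible P)
    (E : Type) [Field E] [Algebra (CR (Ideal.span {P})) E] [IsFractionRing (CR (Ideal.span {P})) E]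
    (F : Polynomial (Pl (n + 1) K)), F.Monic → Irreducible (F.map (toF (Ideal.span {P}) E)) →
    ∃ (H α β : Polynomial (Pl n K)) (G : Pl n K) (Θ : Polynomial (Pl (n + 1) K)), H.Monic ∧
      H.natDegree = (MvPolynomial.finSuccEquiv K n P).natDegree * F.natDegree ∧
      Irreducible (H.map (algebraMap (Pl n K) (RF n K))) ∧ G ≠ 0 ∧
      H.eval₂ (Polynomial.C.comp (up K n : Pl n K →+* Pl (n + 1) K)) Θ ∈
        Ideal.span {Polynomial.C P, F} ∧
      α.eval₂ (Polynomial.C.comp (up K n : Pl n K →+* Pl (n + 1) K)) Θ -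
        Polynomial.C (up K n G * MvPolynomial.X 0) ∈ Ideal.span {Polynomial.C P, F} ∧
      β.eval₂ (Polynomial.C.comp (up K n : Pl n K →+* Pl (n + 1) K)) Θ -
        Polynomial.C (up K n G) * Polynomial.X ∈ Ideal.span {Polynomial.C P, F}

/-- (Tow2X) Adapt `Lib/MP_16285c_agS/Top/Tow2.lean`. PROOF: docstring of `StmtTow2` in `Lib/MP_16285c_agS/Top/Spec.lean`. -/
def StmtTow2X : Prop :=
  ∀ (K : Type) [Field K] (n : ℕ) (P : Pl (n + 1) K) (_ : MonZ P) (_ : Irreducible P)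
    (F : Polynomial (Pl (n + 1) K)), F.Monic → 1 ≤ F.natDegree →
    ∀ (H α β : Polynomial (Pl n K)) (G : Pl n K) (Θ : Polynomial (Pl (n + 1) K)), H.Monic →
      H.natDegree = (MvPolynomial.finSuccEquiv K n P).natDegree * F.natDegree →
      H.eval₂ (Polynomial.C.comp (up K n : Pl n K →+* Pl (n + 1) K)) Θ ∈
        Ideal.span {Polynomial.C P, F} →
      α.eval₂ (Polynomial.C.comp (up K n : Pl n K →+* Pl (n + 1) K)) Θ -
        Polynomial.C (up K n G * MvPolynomial.X 0) ∈ Ideal.span {Polynomial.C P, F} →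
      β.eval₂ (Polynomial.C.comp (up K n : Pl n K →+* Pl (n + 1) K)) Θ -
        Polynomial.C (up K n G) * Polynomial.X ∈ Ideal.span {Polynomial.C P, F} →
      ∀ t : Fin n → K, MvPolynomial.eval t G ≠ 0 → Irreducible (H.map (MvPolynomial.eval t)) →
        Irreducible ((MvPolynomial.finSuccEquiv K n P).map (MvPolynomial.eval t)) ∧
        ∀ (K' : Type) [Field K'] [Algebra K K'] (z₀ : K'), IntermediateField.adjoin K {z₀} = ⊤ →
          MvPolynomial.aeval (pt t z₀) P = 0 →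
          Irreducible (F.map
            ((MvPolynomial.aeval (pt t z₀) : Pl (n + 1) K →ₐ[K] K') : Pl (n + 1) K →+* K'))

/-- (TowX) PROOF. `StmtTow1X` and `StmtTow2X` (`1 ≤ F.natDegree` since `F.map _` is irreducible). -/
def StmtTowX : Prop :=
  ∀ (K : Type) [Field K] [CharZero K] (n : ℕ) (P : Pl (n + 1) K) (_ : MonZ P) (_ : Irreducible P)
    (E : Type) [Field E] [Algebra (CR (Ideal.span {P})) E] [IsFractionRing (CR (Ideal.span {P})) E]
    (F : Polynomial (Pl (n + 1) K)), F.Monic → Irreducible (F.map (toF (Ideal.span {P}) E)) →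
    ∃ (H : Polynomial (MvPolynomial (Fin n) K)) (G : MvPolynomial (Fin n) K), H.Monic ∧
      Irreducible (H.map (algebraMap (Pl n K) (RF n K))) ∧ G ≠ 0 ∧
      ∀ t : Fin n → K, MvPolynomial.eval t G ≠ 0 → Irreducible (H.map (MvPolynomial.eval t)) →
        Irreducible ((MvPolynomial.finSuccEquiv K n P).map (MvPolynomial.eval t)) ∧
        ∀ (K' : Type) [Field K'] [Algebra K K'] (z₀ : K'), IntermediateField.adjoin K {z₀} = ⊤ →
          MvPolynomial.aeval (pt t z₀) P = 0 →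
          Irreducible (F.map
            ((MvPolynomial.aeval (pt t z₀) : Pl (n + 1) K →ₐ[K] K') : Pl (n + 1) K →+* K'))

/-! ## Core and assembly -/

/-- (CoreX) Adapt `Lib/MP_16285c_agS/Top/Core.lean`. PROOF (uses `StmtResF`, `StmtG1`, `StmtRk2`, `StmtRk3`, `StmtTan`, `StmtPresK`, `StmtRkK`, `StmtIrrK`, `StmtPrimS`, `StmtNrmX`, `StmtMoveX`, `StmtTowX`, `StmtLowS`; `pres_pow` in `Lib/MP_16285c_agN/G5.lean`, `van_isPrime` in `CoreN.lean`). Let `𝔮 = span {P}`, prime. `Pres (σ ^ M) 𝔮` (`pres_pow`). `E` is finite over `ρ.fieldRange`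
(`StmtG1`). `F, u, w` from `StmtPrimS`. `H, G₂` from `StmtTowX` for `F`. `G₁` from `StmtMoveX`. `R₁, R₂, R₃, R₄` from `StmtNrmX` for `G₁`, `w`, `pderiv 0 P` and `e` (`¬ P ∣ pderiv 0 P`: its degree in `X 0` is smaller and it is not `0`: characteristic zero, positive degree). `G = G₂ * R₁ * R₂ * R₃ * R₄`. If `G(t) ≠ 0` and `P(pt t z₀) = 0` then `G₁`, `w`, `pderiv 0 P`, `e` do not vanish
at `pt t z₀` (`aeval (pt t z₀) (up K n R) = algebraMap (eval t R)`). Let `K'`, `z₀`, `y`, … be as in the statement. `P(y 0) = 0`, `𝔭' = van y M`, prime (`van_isPrime`), `P' = map P ∈ 𝔭'`, `span {P'} ≤ 𝔭'`. Suppose the inclusion is strict. `rk 𝔭' < rk (span {P'}) = n` (`StmtRk2`, `StmtRk3` (c)). CASE `rk 𝔭' = 0`: `StmtRk3` (a) for the point `y 0`: `X i - C (y 0 i) ∈ 𝔭'` for all `i`, so `y M = y 0`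
(`t = 1`), against `StmtMoveX`. CASE `1 ≤ rk 𝔭'`: `𝔭 = vanK K y M = 𝔭'.comap _`, prime, `rk 𝔭 = rk 𝔭'` (`StmtRkK`), `P ∈ 𝔭`, `𝔮 ≤ 𝔭`, `Pres (σ ^ M) 𝔭` (`StmtPresK`; `M = N * N'`: substitute), `L = FractionRing (CR 𝔭)`, `ρb` from `StmtResF`. All elements of `𝔭` vanish at `y 0` (`t = 0`), so `w, pderiv 0 P, e ∉ 𝔭`. `Irreducible (F.map (aeval (pt t z₀)))` (`StmtTowX`),
`Grd 𝔭' (y 0) (n + 1 - rk 𝔭')` (`StmtTan` for `f.map`; `jac (f.map _) = map (jac f)`, `Pool.Agent.ZDO.map_Jc`), so `F.map (toF 𝔭 L)` is irreducible (`StmtIrrK`), `finrank ρ.fieldRange E = F.natDegree ≤ finrank ρb.fieldRange L` (`StmtLowS`), against `NoFull1`. -/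
def StmtCoreX : Prop :=
  ∀ (K : Type) [Field K] [CharZero K] (n : ℕ) (P : Pl (n + 1) K) (f : RM K (n + 1))
    (σ : RF (n + 1) K →ₐ[K] RF (n + 1) K) (M : ℕ), 1 ≤ n →
    Irreducible P → MonZ P → Of f σ → Pres σ (Ideal.span {P}) → 1 ≤ M →
    ∀ (E : Type) [Field E] [Algebra (CR (Ideal.span {P})) E] [IsFractionRing (CR (Ideal.span {P})) E]
      [Algebra K E] [IsScalarTower K (CR (Ideal.span {P})) E] (ρ : E →ₐ[K] E),
      Rst (σ ^ M) (Ideal.span {P}) E ρ → (∃ h : E, ρ h ≠ h) → ∀ e : Pl (n + 1) K, ¬ P ∣ e →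
      NoFull1 P e (σ ^ M) (Module.finrank ρ.fieldRange E) →
    ∃ (H : Polynomial (Pl n K)) (G : Pl n K), H.Monic ∧
      Irreducible (H.map (algebraMap (Pl n K) (RF n K))) ∧ G ≠ 0 ∧
      ∀ t : Fin n → K, Irreducible (H.map (MvPolynomial.eval t)) → MvPolynomial.eval t G ≠ 0 →
        Irreducible ((MvPolynomial.finSuccEquiv K n P).map (MvPolynomial.eval t)) ∧
        ∀ (K' : Type) [Field K'] [Algebra K K'] [Algebra.IsAlgebraic K K'] (z₀ : K'),
          IntermediateField.adjoin K {z₀} = ⊤ →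
          Irreducible (MvPolynomial.map (algebraMap K K') P) →
          ∀ (y : ℕ → Fin (n + 1) → K') (N N' p p' : ℕ), y 0 = pt t z₀ →
          (f.map (algebraMap K K')).Orb y →
          (∀ m, MvPolynomial.aeval (y m) P = 0 ∧ MvPolynomial.aeval (y m) (jac f) ≠ 0) →
          p.Prime → p'.Prime → p ≠ p' → N * N' = M → Pool.Agent.ZDO.ClN N p y →
          Pool.Agent.ZDO.ClN N' p' y →
          van y M ≤ Ideal.span {MvPolynomial.map (algebraMap K K') P}

/-- (FinX) Adapt `Lib/MP_16285c_agS/Top/Fin.lean`. PROOF OF `StmtTopX` (uses `StmtBoxX`, `StmtDom`, `StmtPresX`, `StmtResF`, `StmtInvDX`, `StmtInvD` (2), `StmtLiftC2`, `StmtHitPt`, `StmtDesc` (1), `StmtCoreX`, `StmtConjS`, `StmtDescS`). The text is the one of `StmtFinS` (docstring in `Lib/MP_16285c_agS/Top/Spec.lean`, proof in `Top/Fin.lean`) with `n` in place of `2`, but simpler (no `NoR`, no descent of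
`NoR`): let `S` be the finite set of `Gr1 P f`. (1) `StmtBoxX` for `B = b * jac f` and `p₀ = 0`: `V, p, a, N`; then for `p₀ = p`: `V', p', a', N'`. `M = N * N'`. (2) `c : Fin n → k` from `StmtLiftC2` for `a i.succ`, `a' i.succ`. (3) `K ⊆ k` = the subfield generated by `S`, the coefficients of `P`, `f.num i`, `f.den i`, of the `E₀, N₀` of `InvX`, and the `c i`: a finitely generated field; `f_K, P_K, E_K, N_K, c_K`.
`Irreducible P_K`, `MonZ P_K`, `InvX f_K P_K` (`StmtInvDX`, `StmtInvD` (2)); `σ_K` with `Of f_K σ_K` (`StmtDom`: `den i ≠ 0`, `jac f_K ≠ 0` as `P_K` divides `0`); `Pres σ_K (span {P_K})` (`StmtPresX`), `Pres (σ_K ^ M) (span {P_K})` (`pres_pow`), `E = FractionRing (CR (span {P_K}))`, `ρ` from `StmtResF` for `σ_K ^ M`. `Gr1` for `K`: `ρ ≠ id` and `e'`. (4) `H, G` from `StmtCoreX`; `StmtHitPt` for `c_K`, `q = p * p'` gives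
`t i = c_K i + p p' j i` with `H(t, Y)` irreducible, `G(t) ≠ 0`. So `P(Z, t)` is irreducible over `K`. (5)-(8) as for `StmtFinS`. -/
def StmtFinX : Prop := StmtTopX

/-- (ModX) PROOF OF `StmtModelX` (uses `StmtTopX`, `StmtCanX`, `StmtDom`, `StmtPresX`, `StmtResF`, `StmtG1` (b), (c), `StmtNoEX`, `StmtNoPowE`, `StmtNoDescX`, `StmtDesc` (1)). We show `Gr1 P f`. (0) as in `StmtFinS` (docstring in `Lib/MP_16285c_agS/Top/Spec.lean`, proof at the beginning of `Top/Fin.lean`): `σ` with `Of f σ` (`StmtDom`), `NoRX σ P` from `NoIX` (`σ (fr G) = f.comp G`), `Pres σ (span {P})` (`StmtPresX`), `E_k = FractionRing (CR (span {P}))`, `ρ_k` from `StmtResF`,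
`Rst (σ ^ m) _ E_k (ρ_k ^ m)`; `NoRX (σ ^ M) P` for all `M ≥ 1` (`StmtNoEX`, `StmtNoPowE`). `S` = the set of the coefficients of `e` and of the elements of the set `S₀` of `GrX`. Let `K, P_K, f_K, σ_K, M, E, ρ` be given; `e_K` with `map e_K = e` exists; `¬ P_K ∣ e_K` (`P_K ∣ e_K` implies `P ∣ e`). `Cmp σ_K σ` (by `StmtDesc` (1) there is `σ'` with `Of f_K σ'` and `Cmp σ' σ`; `σ' = σ_K` as both are determined by the values on the `gen i`; compare `Fin.lean`).
`NoRX (σ_K ^ M) P_K` (`StmtNoDescX`, `cmp_pow`), so `ρ h = h` implies `h` constant (`StmtNoEX`; `span {P_K}` is prime). If `ρ` were the identity all elements of `E` were constants, so the class of `X (Fin.succ i)`, `i : Fin n` (`1 ≤ n`), would be a constant `c`, `P_K ∣ X (Fin.succ i) - C c`, impossible (`P_K` is monic in `X 0` and not a unit, so of positive degree in `X 0`; see `Top/MoveS.lean` of `Lib/MP_16285c_agS`). If `2 ≤ n` let `Γ` be the polynomial of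
`StmtCanX` for `K`, `P_K`, `E`, `σ_K ^ M`, `ρ`; if `n = 1` let `Γ = 1`. `e' = e_K * up K n Γ`: `¬ P_K ∣ e'` (`P_K` is prime; a nonzero polynomial which does not involve `X 0` is not divisible by `P_K`). `NoFull1`: let `𝔭, L, ρb` be given. If `rk 𝔭 + 2 ≤ n`: `GrX P e f` for `K`. If `rk 𝔭 + 1 = n` (so `2 ≤ n`) and `finrank ρ.fieldRange E ≤ finrank ρb.fieldRange L` then `up K n Γ ∈ 𝔭`
(`StmtCanX`), so `e' ∈ 𝔭`: a contradiction. -/
def StmtModX : Prop := StmtModelX

end Pool.Agent.Lib.MP_16285c_agX
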