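import Pool.Agent.Lib.MP_16285c_agX.Top.Spec

/-!
# A primitive element of the tower (proof of `StmtTow1X`)
-/

set_option autoImplicit false

namespace Pool.Agent.Lib.MP_16285c_agX.Tow1XM

open Polynomial

/-- Clearing denominators of one polynomial. -/
theorem clear (S Q : Type) [CommRing S] [IsDomain S] [Field Q] [Algebra S Q] [IsFractionRing S Q]
    (q : Polynomial Q) : ∃ (s : S) (g : Polynomial S), s ≠ 0 ∧
      g.map (algebraMap S Q) = Polynomial.C (algebraMap S Q s) * q := by
  obtain ⟨b, hb, h⟩ := IsLocalization.integerNormalization_spec (M := nonZeroDivisors S) q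
  refine ⟨b, _, nonZeroDivisors.ne_zero hb, h.trans ?_⟩
  rw [Algebra.smul_def]
  rfl

/-- Every element of a simple algebraic extension is a polynomial in the generator, with a common denominator. -/
theorem elt (S Q M : Type) [CommRing S] [IsDomain S] [Field Q] [Algebra S Q] [IsFractionRing S Q]
    [Field M] [Algebra Q M] [Algebra S M] [IsScalarTower S Q M] (θ : M) (hθ : IsIntegral Q θ)
    (htop : IntermediateField.adjoin Q {θ} = ⊤) (m : M) :
    ∃ (s : S) (g : Polynomial S), s ≠ 0 ∧ algebraMap S M s * m = Polynomial.aeval θ g := by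
  have h1 : m ∈ (IntermediateField.adjoin Q {θ}).toSubalgebra := by
    rw [htop]
    trivial
  rw [IntermediateField.adjoin_simple_toSubalgebra_of_isAlgebraic hθ.isAlgebraic,
    Algebra.adjoin_singleton_eq_range_aeval] at h1
  obtain ⟨q, hq⟩ := h1
  obtain ⟨s, g, hs, hg⟩ := clear S Q q
  refine ⟨s, g, hs, ?_⟩
  have h2 : Polynomial.aeval θ (g.map (algebraMap S Q)) = Polynomial.aeval θ g :=
    Polynomial.aeval_map_algebraMap Q θ g
  rw [← h2, hg, map_mul, Polynomial.aeval_C, ← IsScalarTower.algebraMap_apply, ← hq]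
  rfl

/-- The primitive element. -/
theorem prim_abs (S Q M A : Type) [CommRing S] [IsDomain S] [IsIntegrallyClosed S] [Field Q]
    [CharZero Q] [Algebra S Q] [IsFractionRing S Q] [Field M] [Algebra Q M] [Algebra S M]
    [IsScalarTower S Q M] [FiniteDimensional Q M] [CommRing A] (ψ : A →+* M) (ι : S →+* A)
    (hι : ∀ s, ψ (ι s) = algebraMap S M s) (hint : ∀ a : A, IsIntegral S (ψ a))
    (hsurj : ∀ m : M, ∃ (s : S) (a : A), s ≠ 0 ∧ algebraMap S M s * m = ψ a) (a b : A) :
    ∃ (H α β : Polynomial S) (G : S) (Θ : A), H.Monic ∧ H.natDegree = Module.finrank Q M ∧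
      Irreducible (H.map (algebraMap S Q)) ∧ G ≠ 0 ∧ ψ (H.eval₂ ι Θ) = 0 ∧
      ψ (α.eval₂ ι Θ - ι G * a) = 0 ∧ ψ (β.eval₂ ι Θ - ι G * b) = 0 := by
  obtain ⟨θ₀, hθ₀⟩ := Field.exists_primitive_element Q M
  obtain ⟨s, Θ, hs, hΘ⟩ := hsurj θ₀
  have hcomp : ψ.comp ι = algebraMap S M := RingHom.ext hι
  have hev : ∀ g : Polynomial S, ψ (g.eval₂ ι Θ) = Polynomial.aeval (ψ Θ) g := by
    intro g
    rw [Polynomial.hom_eval₂, hcomp, Polynomial.aeval_def]
  have hint' : IsIntegral Q (ψ Θ) := IsIntegral.of_finite _ _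
  have hsQ : algebraMap S Q s ≠ 0 := by
    intro h
    exact hs ((IsFractionRing.injective S Q) (by rw [h, map_zero]))
  have htop : IntermediateField.adjoin Q {ψ Θ} = ⊤ := by
    rw [eq_top_iff, ← hθ₀, IntermediateField.adjoin_simple_le_iff]
    have h1 : θ₀ = (algebraMap Q M (algebraMap S Q s))⁻¹ * ψ Θ := by
      rw [← hΘ, IsScalarTower.algebraMap_apply S Q M, inv_mul_cancel_left₀]
      exact (_root_.map_ne_zero (algebraMap Q M)).2 hsQ
    rw [h1]
    exact mul_mem (inv_mem (IntermediateField.algebraMap_mem _ _))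
      (IntermediateField.mem_adjoin_simple_self Q _)
  have hmin : minpoly Q (ψ Θ) = (minpoly S (ψ Θ)).map (algebraMap S Q) :=
    minpoly.isIntegrallyClosed_eq_field_fractions' Q (hint Θ)
  have hmon : (minpoly S (ψ Θ)).Monic := minpoly.monic (hint Θ)
  obtain ⟨s₁, g₁, hs₁, hg₁⟩ := elt S Q M (ψ Θ) hint' htop (ψ a)
  obtain ⟨s₂, g₂, hs₂, hg₂⟩ := elt S Q M (ψ Θ) hint' htop (ψ b)
  refine ⟨minpoly S (ψ Θ), Polynomial.C s₂ * g₁, Polynomial.C s₁ * g₂, s₁ * s₂, Θ, hmon, ?_, ?_,
    mul_ne_zero hs₁ hs₂, ?_, ?_, ?_⟩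
  · rw [← hmon.natDegree_map (algebraMap S Q), ← hmin, ← IntermediateField.adjoin.finrank hint',
      htop, IntermediateField.finrank_top']
  · rw [← hmin]
    exact minpoly.irreducible hint'
  · rw [hev, minpoly.aeval]
  · rw [map_sub, hev, map_mul, map_mul, Polynomial.aeval_C, ← hg₁, hι, map_mul]
    ring
  · rw [map_sub, hev, map_mul, map_mul, Polynomial.aeval_C, ← hg₂, hι, map_mul]
    ring

/-- The field of functions of a monic hypersurface. -/
theorem surf (S Q E R : Type) [CommRing S] [IsDomain S] [IsIntegrallyClosed S] [Field Q]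
    [Algebra S Q] [IsFractionRing S Q] [Field E] [Algebra Q E] [Algebra S E]
    [IsScalarTower S Q E] [CommRing R] (φ : R →+* E) (ι : S →+* R) (z : R)
    (hι : ∀ s, φ (ι s) = algebraMap S E s) (hR : ∀ r : R, ∃ g : Polynomial S, r = g.eval₂ ι z)
    (p : Polynomial S) (hp : p.Monic) (hpi : Irreducible p) (hpz : φ (p.eval₂ ι z) = 0)
    (hfr : ∀ e : E, ∃ a b : R, e = φ a / φ b) :
    FiniteDimensional Q E ∧ Module.finrank Q E = p.natDegree ∧
      (∀ r : R, IsIntegral S (φ r)) ∧
      ∀ e : E, ∃ (s : S) (r : R), s ≠ 0 ∧ algebraMap S E s * e = φ r := by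
  have hcomp : φ.comp ι = algebraMap S E := RingHom.ext hι
  have hev : ∀ g : Polynomial S, φ (g.eval₂ ι z) = Polynomial.aeval (φ z) g := by
    intro g
    rw [Polynomial.hom_eval₂, hcomp, Polynomial.aeval_def]
  have hpz' : Polynomial.aeval (φ z) p = 0 := by rw [← hev, hpz]
  have hzint : IsIntegral S (φ z) := ⟨p, hp, hpz'⟩
  have hzQ : IsIntegral Q (φ z) := hzint.tower_top
  have hpQ : Irreducible (p.map (algebraMap S Q)) :=
    (Polynomial.Monic.irreducible_iff_irreducible_map_fraction_map hp).1 hpi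
  have hmin : p.map (algebraMap S Q) = minpoly Q (φ z) := by
    refine minpoly.eq_of_irreducible_of_monic hpQ ?_ (hp.map _)
    rw [Polynomial.aeval_map_algebraMap, hpz']
  have hmem : ∀ r : R, φ r ∈ IntermediateField.adjoin Q {φ z} := by
    intro r
    obtain ⟨g, rfl⟩ := hR r
    rw [hev, ← Polynomial.aeval_map_algebraMap Q (φ z) g]
    exact IntermediateField.algebra_adjoin_le_adjoin Q _
      (Polynomial.aeval_mem_adjoin_singleton Q (φ z))
  have htop : IntermediateField.adjoin Q {φ z} = ⊤ := by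
    rw [eq_top_iff]
    intro e _
    obtain ⟨a, b, rfl⟩ := hfr e
    exact div_mem (hmem a) (hmem b)
  have hfd : FiniteDimensional Q E := by
    have h1 : FiniteDimensional Q (IntermediateField.adjoin Q {φ z}) :=
      IntermediateField.adjoin.finiteDimensional hzQ
    rw [htop] at h1
    exact (IntermediateField.topEquiv (F := Q) (E := E)).toLinearEquiv.finiteDimensional
  refine ⟨hfd, ?_, ?_, ?_⟩
  · rw [← IntermediateField.finrank_top', ← htop, IntermediateField.adjoin.finrank hzQ, ← hmin,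
      hp.natDegree_map]
  · intro r
    obtain ⟨g, rfl⟩ := hR r
    rw [hev]
    induction g using Polynomial.induction_on' with
    | add a b ha hb =>
      rw [map_add]
      exact ha.add hb
    | monomial n a =>
      rw [Polynomial.aeval_monomial]
      exact isIntegral_algebraMap.mul (hzint.pow n)
  · intro e
    obtain ⟨s, g, hs, hg⟩ := elt S Q E (φ z) hzQ htop e
    exact ⟨s, g.eval₂ ι z, hs, by rw [hg, hev]⟩

/-- One more step. -/
theorem step (S E M R : Type) [CommRing S] [IsDomain S] [Field E] [Algebra S E] [Field M]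
    [Algebra E M] [Algebra S M] [IsScalarTower S E M] [CommRing R] (φ : R →+* E) (ι : S →+* R)
    (hι : ∀ s, φ (ι s) = algebraMap S E s) (hint : ∀ r : R, IsIntegral S (φ r))
    (hsurj : ∀ e : E, ∃ (s : S) (r : R), s ≠ 0 ∧ algebraMap S E s * e = φ r)
    (F : Polynomial R) (hF : F.Monic) (y : M) (hy : Polynomial.aeval y (F.map φ) = 0)
    (hM : ∀ m : M, ∃ q : Polynomial E, m = Polynomial.aeval y q) :
    (∀ a : Polynomial R, IsIntegral S (Polynomial.aeval y (a.map φ))) ∧
      ∀ m : M, ∃ (s : S) (a : Polynomial R), s ≠ 0 ∧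
        algebraMap S M s * m = Polynomial.aeval y (a.map φ) := by
  have hint' : ∀ r : R, IsIntegral S (algebraMap E M (φ r)) := fun r => (hint r).algebraMap
  have hyint : IsIntegral S y := by
    let φ' : R →+* integralClosure S M :=
      ((algebraMap E M).comp φ).codRestrict (integralClosure S M) hint'
    have h1 : IsIntegral (integralClosure S M) y := by
      refine ⟨F.map φ', hF.map _, ?_⟩
      rw [Polynomial.eval₂_map]
      rw [Polynomial.aeval_def, Polynomial.eval₂_map] at hy
      exact hy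
    exact isIntegral_trans y h1
  constructor
  · intro a
    induction a using Polynomial.induction_on' with
    | add a b ha hb =>
      rw [Polynomial.map_add, map_add]
      exact ha.add hb
    | monomial n a =>
      rw [Polynomial.map_monomial, Polynomial.aeval_monomial]
      exact (hint' a).mul (hyint.pow n)
  · intro m
    obtain ⟨q, rfl⟩ := hM m
    induction q using Polynomial.induction_on' with
    | add a b ha hb =>
      obtain ⟨s, u, hs, hu⟩ := ha
      obtain ⟨t, v, ht, hv⟩ := hb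
      refine ⟨s * t, Polynomial.C (ι t) * u + Polynomial.C (ι s) * v, mul_ne_zero hs ht, ?_⟩
      rw [Polynomial.map_add, Polynomial.map_mul, Polynomial.map_mul, Polynomial.map_C,
        Polynomial.map_C, map_add, map_add, map_mul (Polynomial.aeval y),
        map_mul (Polynomial.aeval y), Polynomial.aeval_C,
        Polynomial.aeval_C, hι, hι, ← IsScalarTower.algebraMap_apply,
        ← IsScalarTower.algebraMap_apply, ← hu, ← hv, map_mul]
      ring
    | monomial n a =>
      obtain ⟨s, r, hs, hr⟩ := hsurj a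
      refine ⟨s, Polynomial.monomial n r, hs, ?_⟩
      rw [Polynomial.map_monomial, Polynomial.aeval_monomial, Polynomial.aeval_monomial, ← hr,
        map_mul, ← IsScalarTower.algebraMap_apply, mul_assoc]

/-- The kernel of the evaluation. -/
theorem ker_mem (E R : Type) [Field E] [CommRing R] (φ : R →+* E) (P : R)
    (hker : ∀ r : R, φ r = 0 → P ∣ r) (F : Polynomial R) (hF : F.Monic)
    [Fact (Irreducible (F.map φ))] (W : Polynomial R)
    (hW : Polynomial.aeval (AdjoinRoot.root (F.map φ)) (W.map φ) = 0) :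
    W ∈ Ideal.span {Polynomial.C P, F} := by
  have hRne : Nontrivial R := by
    refine ⟨⟨1, 0, fun h => ?_⟩⟩
    have h1 : φ 1 = φ 0 := by rw [h]
    rw [map_one, map_zero] at h1
    exact one_ne_zero h1
  have hy : Polynomial.aeval (AdjoinRoot.root (F.map φ)) (F.map φ) = 0 := by
    rw [AdjoinRoot.aeval_eq, AdjoinRoot.mk_self]
  have hdiv : W = F * (W /ₘ F) + W %ₘ F := by
    rw [add_comm]
    exact (Polynomial.modByMonic_add_div W F).symm
  have hr : Polynomial.aeval (AdjoinRoot.root (F.map φ)) ((W %ₘ F).map φ) = 0 := by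
    rw [hdiv, Polynomial.map_add, Polynomial.map_mul, map_add, map_mul, hy, zero_mul,
      zero_add] at hW
    exact hW
  rw [AdjoinRoot.aeval_eq, AdjoinRoot.mk_eq_zero] at hr
  have hz : (W %ₘ F).map φ = 0 := by
    by_contra h0
    have h1 := Polynomial.degree_le_of_dvd hr h0
    have h2 : ((W %ₘ F).map φ).degree ≤ (W %ₘ F).degree := Polynomial.degree_map_le
    have h3 := Polynomial.degree_modByMonic_lt W hF
    have h4 : (F.map φ).degree = F.degree := hF.degree_map φ
    rw [h4] at h1
    exact absurd (h1.trans h2) (not_le.2 h3)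
  have hmem : W %ₘ F ∈ Ideal.map (Polynomial.C : R →+* Polynomial R) (Ideal.span {P}) := by
    rw [Ideal.mem_map_C_iff]
    intro n
    rw [Ideal.mem_span_singleton]
    apply hker
    rw [← Polynomial.coeff_map, hz, Polynomial.coeff_zero]
  rw [Ideal.map_span, Set.image_singleton] at hmem
  rw [hdiv]
  refine add_mem (Ideal.mul_mem_right _ _ (Ideal.subset_span (by simp))) ?_
  exact Ideal.span_mono (by simp) hmem

/-- The tower. -/
theorem tower (S Q E R : Type) [CommRing S] [IsDomain S] [IsIntegrallyClosed S] [Field Q]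
    [CharZero Q] [Algebra S Q] [IsFractionRing S Q] [Field E] [Algebra Q E] [Algebra S E]
    [IsScalarTower S Q E] [CommRing R] (φ : R →+* E) (ι : S →+* R)
    (hι : ∀ s, φ (ι s) = algebraMap S E s) (P : R) (hker : ∀ r : R, φ r = 0 → P ∣ r)
    (hfd : FiniteDimensional Q E) (hint : ∀ r : R, IsIntegral S (φ r))
    (hsurj : ∀ e : E, ∃ (s : S) (r : R), s ≠ 0 ∧ algebraMap S E s * e = φ r)
    (F : Polynomial R) (hF : F.Monic) [Fact (Irreducible (F.map φ))] (a b : Polynomial R) :
    ∃ (H α β : Polynomial S) (G : S) (Θ : Polynomial R), H.Monic ∧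
      H.natDegree = Module.finrank Q E * F.natDegree ∧
      Irreducible (H.map (algebraMap S Q)) ∧ G ≠ 0 ∧
      H.eval₂ (Polynomial.C.comp ι) Θ ∈ Ideal.span {Polynomial.C P, F} ∧
      α.eval₂ (Polynomial.C.comp ι) Θ - Polynomial.C (ι G) * a ∈
        Ideal.span {Polynomial.C P, F} ∧
      β.eval₂ (Polynomial.C.comp ι) Θ - Polynomial.C (ι G) * b ∈
        Ideal.span {Polynomial.C P, F} := by
  have hne : F.map φ ≠ 0 := (hF.map φ).ne_zero
  have hpb := (AdjoinRoot.powerBasis hne).finrank
  rw [AdjoinRoot.powerBasis_dim, hF.natDegree_map] at hpb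
  have hfd2 : Module.Finite E (AdjoinRoot (F.map φ)) := (AdjoinRoot.powerBasis hne).finite
  have hfd3 : FiniteDimensional Q (AdjoinRoot (F.map φ)) :=
    Module.Finite.trans E (AdjoinRoot (F.map φ))
  have hmul : Module.finrank Q E * Module.finrank E (AdjoinRoot (F.map φ)) =
      Module.finrank Q (AdjoinRoot (F.map φ)) :=
    Module.finrank_mul_finrank Q E (AdjoinRoot (F.map φ))
  have hy : Polynomial.aeval (AdjoinRoot.root (F.map φ)) (F.map φ) = 0 := by
    rw [AdjoinRoot.aeval_eq, AdjoinRoot.mk_self]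
  obtain ⟨h1, h2⟩ := step S E (AdjoinRoot (F.map φ)) R φ ι hι hint hsurj F hF
    (AdjoinRoot.root (F.map φ)) hy (fun m => by
      obtain ⟨q, rfl⟩ := AdjoinRoot.mk_surjective m
      exact ⟨q, (AdjoinRoot.aeval_eq q).symm⟩)
  let ψ : Polynomial R →+* AdjoinRoot (F.map φ) :=
    (Polynomial.aeval (AdjoinRoot.root (F.map φ)) :
      Polynomial E →ₐ[E] AdjoinRoot (F.map φ)).toRingHom.comp (Polynomial.mapRingHom φ)
  have hψ : ∀ W : Polynomial R, ψ W = Polynomial.aeval (AdjoinRoot.root (F.map φ)) (W.map φ) :=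
    fun W => rfl
  obtain ⟨H, α, β, G, Θ, g1, g2, g3, g4, g5, g6, g7⟩ := prim_abs S Q (AdjoinRoot (F.map φ))
    (Polynomial R) ψ (Polynomial.C.comp ι) (by
      intro s
      rw [hψ, RingHom.comp_apply, Polynomial.map_C, Polynomial.aeval_C, hι,
        ← IsScalarTower.algebraMap_apply]) h1 h2 a b
  refine ⟨H, α, β, G, Θ, g1, ?_, g3, g4, ?_, ?_, ?_⟩
  · rw [g2, ← hmul, hpb]
  · exact ker_mem E R φ P hker F hF _ g5
  · exact ker_mem E R φ P hker F hF _ g6
  · exact ker_mem E R φ P hker F hF _ g7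

end Pool.Agent.Lib.MP_16285c_agX.Tow1XM

namespace Pool.Agent.Lib.MP_16285c_agX

open Pool.Agent.Lib.MP_16285c_ag Pool.Agent.Lib.MP_16285c_agN
open Pool.Agent.Lib.MP_16285c_agS (toF)

/-- Every polynomial as a polynomial in `X 0`. -/
theorem Tow1XM.symm_eval (K : Type) [Field K] (n : ℕ) (g : Polynomial (Pl n K)) :
    (MvPolynomial.finSuccEquiv K n).symm g =
      g.eval₂ (up K n : Pl n K →+* Pl (n + 1) K) (MvPolynomial.X 0) := by
  induction g using Polynomial.induction_on' with
  | add a b ha hb => rw [map_add, ha, hb, Polynomial.eval₂_add]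
  | monomial m a =>
    rw [Polynomial.eval₂_monomial, ← Polynomial.C_mul_X_pow_eq_monomial, map_mul, map_pow]
    have h1 : (MvPolynomial.finSuccEquiv K n).symm (Polynomial.C a) =
        MvPolynomial.rename Fin.succ a := Pool.Agent.Lib.MP_16285c_ag.up_C a
    have h2 : (MvPolynomial.finSuccEquiv K n).symm Polynomial.X = MvPolynomial.X 0 :=
      Pool.Agent.Lib.MP_16285c_ag.up_X
    rw [h1, h2]
    rfl

/-- Proof of `StmtTow1X`. -/
theorem tTow1X : StmtTow1X := by
  intro K _ _ n P hP hPi E _ _ _ F hF hFi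
  have hPz : P = (MvPolynomial.finSuccEquiv K n P).eval₂ (up K n : Pl n K →+* Pl (n + 1) K)
      (MvPolynomial.X 0) := by
    rw [← Tow1XM.symm_eval, AlgEquiv.symm_apply_apply]
  have hpi : Irreducible (MvPolynomial.finSuccEquiv K n P) :=
    (MulEquiv.irreducible_iff (MvPolynomial.finSuccEquiv K n)).2 hPi
  have hker : ∀ r : Pl (n + 1) K, toF (Ideal.span {P}) E r = 0 ↔ P ∣ r := by
    intro r
    rw [← Ideal.mem_span_singleton, ← Ideal.Quotient.eq_zero_iff_mem]
    have h1 : toF (Ideal.span {P}) E r =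
      algebraMap (CR (Ideal.span {P})) E (Ideal.Quotient.mk (Ideal.span {P}) r) := rfl
    rw [h1]
    constructor
    · intro h
      exact (IsFractionRing.injective (CR (Ideal.span {P})) E) (by rw [h, map_zero])
    · intro h
      rw [h, map_zero]
  have hdeg : (MvPolynomial.finSuccEquiv K n P).natDegree ≠ 0 := by
    intro h
    have h1 : (MvPolynomial.finSuccEquiv K n P) = 1 :=
      Polynomial.eq_one_of_monic_natDegree_zero hP h
    rw [h1] at hpi
    exact hpi.not_isUnit isUnit_one
  have hinj : Function.Injective ((toF (Ideal.span {P}) E).comp (up K n : Pl n K →+* Pl (n + 1) K)) := by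
    rw [injective_iff_map_eq_zero]
    intro s hs
    have h1 : P ∣ up K n s := (hker _).1 hs
    have h2 : MvPolynomial.finSuccEquiv K n P ∣ Polynomial.C s := by
      have h3 := map_dvd (MvPolynomial.finSuccEquiv K n) h1
      have h4 : MvPolynomial.finSuccEquiv K n (up K n s) = Polynomial.C s := by
        have h5 : up K n s = Pool.Agent.Lib.MP_16285c_ag.up (Polynomial.C s) :=
          (Pool.Agent.Lib.MP_16285c_ag.up_C s).symm
        rw [h5, Pool.Agent.Lib.MP_16285c_ag.finSuccEquiv_up]
      rwa [h4] at h3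
    by_contra h0
    have h6 : (Polynomial.C s : Polynomial (Pl n K)) ≠ 0 := Polynomial.C_ne_zero.2 h0
    have h7 := Polynomial.natDegree_le_of_dvd h2 h6
    rw [Polynomial.natDegree_C] at h7
    omega
  let algQE : Algebra (RF n K) E :=
    (IsFractionRing.lift (A := Pl n K) (K := RF n K) hinj).toAlgebra
  let algSE : Algebra (Pl n K) E :=
    ((toF (Ideal.span {P}) E).comp (up K n : Pl n K →+* Pl (n + 1) K)).toAlgebra
  have tow1 : IsScalarTower (Pl n K) (RF n K) E := by
    refine IsScalarTower.of_algebraMap_eq' (RingHom.ext fun s => ?_)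
    exact (IsFractionRing.lift_algebraMap (A := Pl n K) (K := RF n K) hinj s).symm
  have hfact : Fact (Irreducible (F.map (toF (Ideal.span {P}) E))) := ⟨hFi⟩
  have hfr : ∀ e : E, ∃ a b : Pl (n + 1) K, e = toF (Ideal.span {P}) E a / toF (Ideal.span {P}) E b := by
    intro e
    obtain ⟨x, y, hy, hxy⟩ := IsFractionRing.div_surjective (A := CR (Ideal.span {P})) e
    obtain ⟨a, rfl⟩ := Ideal.Quotient.mk_surjective x
    obtain ⟨b, rfl⟩ := Ideal.Quotient.mk_surjective y
    exact ⟨a, b, hxy.symm⟩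
  obtain ⟨hfd, hrk, hint, hsurj⟩ := Tow1XM.surf (Pl n K) (RF n K) E (Pl (n + 1) K)
    (toF (Ideal.span {P}) E) (up K n : Pl n K →+* Pl (n + 1) K) (MvPolynomial.X 0) (fun s => rfl)
    (fun r => ⟨MvPolynomial.finSuccEquiv K n r, by
      rw [← Tow1XM.symm_eval, AlgEquiv.symm_apply_apply]⟩)
    (MvPolynomial.finSuccEquiv K n P) hP hpi (by
      rw [← hPz]
      exact (hker P).2 dvd_rfl) hfr
  obtain ⟨H, α, β, G, Θ, g1, g2, g3, g4, g5, g6, g7⟩ := Tow1XM.tower (Pl n K) (RF n K) E
    (Pl (n + 1) K) (toF (Ideal.span {P}) E) (up K n : Pl n K →+* Pl (n + 1) K) (fun s => rfl) P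
    (fun r => (hker r).1) hfd hint hsurj F hF (Polynomial.C (MvPolynomial.X 0)) Polynomial.X
  refine ⟨H, α, β, G, Θ, g1, ?_, g3, g4, g5, ?_, g7⟩
  · rw [g2, hrk]
  · rw [← Polynomial.C_mul] at g6
    exact g6

end Pool.Agent.Lib.MP_16285c_agX
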